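import Mathlib

/-!
# Biplanar drawings (MP_bacf0e_co): definitions (helper55)
-/

set_option autoImplicit false

open Finset

namespace Pool.Agent.H55.BP

/-- The crossings of the arcs `arc a b`, `0 < t < 1`, of the edges `ab` of `G`: all pairs consisting
of an unordered pair of different edges and a common inner point of their arcs. -/
def crossSet {V : Type} (G : SimpleGraph V) (arc : V → V → ℝ → ℂ) : Set (Sym2 (Sym2 V) × ℂ) :=
  {x | ∃ a b c d, G.Adj a b ∧ G.Adj c d ∧ s(a, b) ≠ s(c, d) ∧ x.1 = s(s(a, b), s(c, d)) ∧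
    x.2 ∈ arc a b '' Set.Ioo 0 1 ∧ x.2 ∈ arc c d '' Set.Ioo 0 1}

/-- A drawing of the graph `G` in the plane: the vertices are distinct points, the edge `uv` is the
simple arc `t ↦ arc u v t`, `0 ≤ t ≤ 1`, from `u` to `v`, the inner points of which are not vertices
(`arc v u` is the same arc run backwards), and there are finitely many crossings. -/
structure Drawing {V : Type} (G : SimpleGraph V) where
  pt : V → ℂ
  arc : V → V → ℝ → ℂ
  pt_inj : Function.Injective pt
  cont : ∀ u v, G.Adj u v → ContinuousOn (arc u v) (Set.Icc 0 1)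
  zero : ∀ u v, G.Adj u v → arc u v 0 = pt u
  one : ∀ u v, G.Adj u v → arc u v 1 = pt v
  rev : ∀ u v, G.Adj u v → ∀ t ∈ Set.Icc (0 : ℝ) 1, arc v u t = arc u v (1 - t)
  inj : ∀ u v, G.Adj u v → Set.InjOn (arc u v) (Set.Icc 0 1)
  avoid : ∀ u v, G.Adj u v → ∀ t ∈ Set.Ioo (0 : ℝ) 1, ∀ w, arc u v t ≠ pt w
  fin : (crossSet G arc).Finite

/-- the number of crossings of a drawing -/
noncomputable def Drawing.crossings {V : Type} {G : SimpleGraph V} (D : Drawing G) : ℕ :=
  (crossSet G D.arc).ncard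

/-- A biplanar drawing of `G`: a partition of the edges into two graphs on the same vertex set, and
a drawing of each of them. -/
structure Biplanar {V : Type} (G : SimpleGraph V) where
  G₁ : SimpleGraph V
  G₂ : SimpleGraph V
  sup : G₁ ⊔ G₂ = G
  disj : Disjoint G₁ G₂
  D₁ : Drawing G₁
  D₂ : Drawing G₂

/-- the total number of crossings in the two planes -/
noncomputable def Biplanar.crossings {V : Type} {G : SimpleGraph V} (B : Biplanar G) : ℕ :=
  B.D₁.crossings + B.D₂.crossings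

/-- the number of crossings is the least one among all biplanar drawings of the graph -/
def Biplanar.Optimal {V : Type} {G : SimpleGraph V} (B : Biplanar G) : Prop :=
  ∀ B' : Biplanar G, B.crossings ≤ B'.crossings

/-- the two graphs are isomorphic, and the drawing of the second one is the drawing of the first one,
relabelled by the isomorphism -/
def Biplanar.SelfComplementary {V : Type} {G : SimpleGraph V} (B : Biplanar G) : Prop :=
  ∃ φ : V ≃ V, (∀ u v, B.G₁.Adj u v ↔ B.G₂.Adj (φ u) (φ v)) ∧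
    (∀ v, B.D₂.pt (φ v) = B.D₁.pt v) ∧
    ∀ u v, B.G₁.Adj u v → ∀ t ∈ Set.Icc (0 : ℝ) 1, B.D₂.arc (φ u) (φ v) t = B.D₁.arc u v t

/-- the complete bipartite graph `K_{n,m}` -/
abbrev K (n m : ℕ) : SimpleGraph (Fin n ⊕ Fin m) := completeBipartiteGraph (Fin n) (Fin m)

/-- the question for `K_{n,m}` -/
def Q1 (n m : ℕ) : Prop := ∃ B : Biplanar (K n m), B.Optimal ∧ B.SelfComplementary

/-! ## Auxiliary notions -/

/-- Weak drawings of a set `E` of edges (pairs of a white and a black vertex): the ends of every edge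
are joined in a set, and these sets are disjoint for edges without common ends. -/
def WD {V : Type} (E : Finset (V × V)) : Prop :=
  ∃ (pt : V → ℂ) (S : V → V → Set ℂ), (∀ e ∈ E, JoinedIn (S e.1 e.2) (pt e.1) (pt e.2)) ∧
    ∀ e ∈ E, ∀ f ∈ E, e.1 ≠ f.1 → e.2 ≠ f.2 → Disjoint (S e.1 e.2) (S f.1 f.2)

/-- the orientation of a triangle (twice its signed area) -/
def ori (a b c : ℂ) : ℝ := (b.re - a.re) * (c.im - a.im) - (b.im - a.im) * (c.re - a.re)

/-- one of the segments `ab`, `cd` lies strictly on one side of the line of the other one -/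
def Sep (a b c d : ℂ) : Prop :=
  (0 < ori a b c ∧ 0 < ori a b d) ∨ (ori a b c < 0 ∧ ori a b d < 0) ∨
    (0 < ori c d a ∧ 0 < ori c d b) ∨ (ori c d a < 0 ∧ ori c d b < 0)

/-- the pairs of disjoint edges which are not separated in the straight line drawing -/
def badPairs {V : Type} (G : SimpleGraph V) (P : V → ℂ) : Set (Sym2 (Sym2 V)) :=
  {x | ∃ a b c d, G.Adj a b ∧ G.Adj c d ∧ a ≠ c ∧ a ≠ d ∧ b ≠ c ∧ b ≠ d ∧
    x = s(s(a, b), s(c, d)) ∧ ¬ Sep (P a) (P b) (P c) (P d)}

/-- the bipartite graph in which the white vertex `i` and the black vertex `j` are adjacent iff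
`A i j` -/
def BG {n m : ℕ} (A : Fin n → Fin m → Bool) : SimpleGraph (Fin n ⊕ Fin m) where
  Adj u v := (∃ i j, u = Sum.inl i ∧ v = Sum.inr j ∧ A i j = true) ∨
    ∃ i j, v = Sum.inl i ∧ u = Sum.inr j ∧ A i j = true
  symm := ⟨fun _ _ h => h.symm⟩
  loopless := ⟨by
    rintro u (⟨i, j, h1, h2, -⟩ | ⟨i, j, h1, h2, -⟩) <;> simp [h1] at h2⟩

/-- orientation over the integers -/
def oriZ (a b c : ℤ × ℤ) : ℤ := (b.1 - a.1) * (c.2 - a.2) - (b.2 - a.2) * (c.1 - a.1)

/-- separation over the integers -/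
def sepZ (a b c d : ℤ × ℤ) : Bool :=
  (decide (0 < oriZ a b c) && decide (0 < oriZ a b d)) ||
  (decide (oriZ a b c < 0) && decide (oriZ a b d < 0)) ||
  (decide (0 < oriZ c d a) && decide (0 < oriZ c d b)) ||
  (decide (oriZ c d a < 0) && decide (oriZ c d b < 0))

/-! ### Templates: families of straight line drawings -/

/-- A template: white points, and the left ends of horizontal unit segments for the black points of
each of `p` types; `N k i` = the black points of type `k` are adjacent to the white point `i`. -/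
structure Tmpl (n p : ℕ) where
  w : Fin n → ℤ × ℤ
  b : Fin p → ℤ × ℤ
  N : Fin p → Fin n → Bool

/-- the translate by the unit segment -/
def sh (a : ℤ × ℤ) (s : ℤ) : ℤ × ℤ := (a.1 + s, a.2)

/-- all four corner values are positive -/
def pos4 (f : ℤ → ℤ → ℤ) : Prop := 0 < f 0 0 ∧ 0 < f 0 1 ∧ 0 < f 1 0 ∧ 0 < f 1 1

instance (f : ℤ → ℤ → ℤ) : Decidable (pos4 f) := by unfold pos4; infer_instance

/-- the conditions on a template; `C` = the types with one pair of neighbours on the same side -/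
structure Tmpl.Ok {n p : ℕ} (T : Tmpl n p) (C : Finset (Fin p)) : Prop where
  ww : ∀ i j, i ≠ j → T.w i ≠ T.w j
  wb : ∀ i k, (T.w i).2 ≠ (T.b k).2
  bb : ∀ k l, k ≠ l → (T.b k).2 ≠ (T.b l).2 ∨ (T.b k).1 + 1 < (T.b l).1 ∨ (T.b l).1 + 1 < (T.b k).1
  ow : ∀ k i j, T.N k i = true → i ≠ j →
    pos4 (fun s _ => oriZ (T.w i) (sh (T.b k) s) (T.w j)) ∨
    pos4 (fun s _ => - oriZ (T.w i) (sh (T.b k) s) (T.w j))
  ob : ∀ k l i, T.N k i = true → k ≠ l →
    pos4 (fun s t => oriZ (T.w i) (sh (T.b k) s) (sh (T.b l) t)) ∨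
    pos4 (fun s t => - oriZ (T.w i) (sh (T.b k) s) (sh (T.b l) t))
  sp : ∀ k l i j, T.N k i = true → T.N l j = true → k ≠ l → i ≠ j →
    (pos4 (fun s _ => oriZ (T.w i) (sh (T.b k) s) (T.w j)) ∧
      pos4 (fun s t => oriZ (T.w i) (sh (T.b k) s) (sh (T.b l) t))) ∨
    (pos4 (fun s _ => - oriZ (T.w i) (sh (T.b k) s) (T.w j)) ∧
      pos4 (fun s t => - oriZ (T.w i) (sh (T.b k) s) (sh (T.b l) t))) ∨
    (pos4 (fun s _ => oriZ (T.w j) (sh (T.b l) s) (T.w i)) ∧
      pos4 (fun s t => oriZ (T.w j) (sh (T.b l) s) (sh (T.b k) t))) ∨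
    (pos4 (fun s _ => - oriZ (T.w j) (sh (T.b l) s) (T.w i)) ∧
      pos4 (fun s t => - oriZ (T.w j) (sh (T.b l) s) (sh (T.b k) t)))
  sd : ∀ k i j i' j', T.N k i = true → T.N k j = true → i < j → T.N k i' = true → T.N k j' = true →
    i' < j' → ((T.w i).2 < (T.b k).2 ↔ (T.w j).2 < (T.b k).2) →
    ((T.w i').2 < (T.b k).2 ↔ (T.w j').2 < (T.b k).2) → i = i' ∧ j = j'
  sc : ∀ k i j, k ∉ C → T.N k i = true → T.N k j = true → i ≠ j →
    ¬ ((T.w i).2 < (T.b k).2 ↔ (T.w j).2 < (T.b k).2)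

/-- the type of a black vertex -/
def ty (p : ℕ) [NeZero p] (j : ℕ) : Fin p := Fin.ofNat p j

/-- the graph of a template with `m` black vertices -/
def Tmpl.adj {n p : ℕ} [NeZero p] (T : Tmpl n p) (m : ℕ) (i : Fin n) (j : Fin m) : Bool :=
  T.N (ty p j.val) i

/-- the pairs of black vertices of the same type, which is in `C` -/
def same (p m : ℕ) [NeZero p] (C : Finset (Fin p)) : Finset (Fin m × Fin m) :=
  univ.filter fun x => x.1 < x.2 ∧ x.1.val % p = x.2.val % p ∧ ty p x.1.val ∈ C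

end Pool.Agent.H55.BP
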