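import Pool.Agent.H55.BP.Defs

/-!
# Biplanar drawings (MP_bacf0e_co): targets (helper55)

Every `T_X` is a proposition to be proved in a module of its own. See `Defs.lean`.
-/

set_option autoImplicit false

open Finset

namespace Pool.Agent.H55.BP

/-! ## A. `K_{3,3}` has no drawing -/

/-- PAR: the parity argument. -/
def T_PAR : Prop :=
  ∀ (p q : Fin 3 → ℂ) (W V : Fin 3 → Fin 3 → Fin 3 → ℝ),
    (∀ i k, i ≠ k → p i ≠ p k) → (∀ j l, j ≠ l → q j ≠ q l) → (∀ i j, p i ≠ q j) →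
    (∀ i j k, i ≠ k → Complex.exp (Complex.I * W i j k) * ((p i - p k) / ‖p i - p k‖) =
      (q j - p k) / ‖q j - p k‖) →
    (∀ i j l, j ≠ l → Complex.exp (Complex.I * V i j l) * ((p i - q l) / ‖p i - q l‖) =
      (q j - q l) / ‖q j - q l‖) →
    (∀ i j k l, i ≠ k → j ≠ l → W i j k - V i j l + V k l j - W k l i = 0) → False

/-- ANG: the angles swept out by the arcs. -/
def T_ANG : Prop :=
  ∀ (p q : Fin 3 → ℂ) (γ : ∀ i j, Path (p i) (q j)),
    (∀ i j k l, i ≠ k → j ≠ l → Disjoint (Set.range (γ i j)) (Set.range (γ k l))) →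
    ∃ W V : Fin 3 → Fin 3 → Fin 3 → ℝ,
      (∀ i j k, i ≠ k → Complex.exp (Complex.I * W i j k) * ((p i - p k) / ‖p i - p k‖) =
        (q j - p k) / ‖q j - p k‖) ∧
      (∀ i j l, j ≠ l → Complex.exp (Complex.I * V i j l) * ((p i - q l) / ‖p i - q l‖) =
        (q j - q l) / ‖q j - q l‖) ∧
      (∀ i j k l, i ≠ k → j ≠ l → W i j k - V i j l + V k l j - W k l i = 0)

/-- N33: `K_{3,3}` has no drawing in which disjoint edges do not meet. -/
def T_N33 : Prop :=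
  ∀ (p q : Fin 3 → ℂ) (S : Fin 3 → Fin 3 → Set ℂ), (∀ i j, JoinedIn (S i j) (p i) (q j)) →
    (∀ i j k l, i ≠ k → j ≠ l → Disjoint (S i j) (S k l)) → False

/-! ## B. The Euler bound -/

/-- CTR: contraction of `x`, `b`, `y` to `x`. -/
def T_CTR : Prop :=
  ∀ {V : Type} [DecidableEq V] (E : Finset (V × V)) (x y b : V), WD E → x ≠ y →
    (∀ e ∈ E, ∀ f ∈ E, e.1 ≠ f.2) → (x, b) ∈ E → (y, b) ∈ E →
    ∃ E' : Finset (V × V), WD E' ∧ (∀ e ∈ E', (e ∈ E ∨ (e.1 = x ∧ (y, e.2) ∈ E)) ∧ e.1 ≠ y ∧ e.2 ≠ b) ∧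
      E'.card + (E.filter fun e => e.2 = b).card +
        (E.filter fun e => e.1 = x ∧ e.2 ≠ b ∧ (y, e.2) ∈ E).card = E.card

/-- EB: a bipartite graph on a finite set `S` of at least 3 vertices with a weak drawing has at most
`2 |S| - 4` edges. -/
def T_EB : Prop :=
  ∀ {V : Type} [DecidableEq V] (c : V → Bool) (S : Finset V) (E : Finset (V × V)),
    (∀ e ∈ E, e.1 ∈ S ∧ e.2 ∈ S ∧ c e.1 = true ∧ c e.2 = false) → WD E → 3 ≤ S.card →
      E.card + 4 ≤ 2 * S.card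

/-- DWD: from drawings to weak drawings. -/
def T_DWD : Prop :=
  ∀ {V : Type} (G : SimpleGraph V) (D : Drawing G) (c : V → Bool) (E : Finset (V × V)),
    (∀ e ∈ E, G.Adj e.1 e.2 ∧ c e.1 = true ∧ c e.2 = false) →
    (∀ e ∈ E, ∀ f ∈ E, e.1 ≠ f.1 → e.2 ≠ f.2 →
      Disjoint (D.arc e.1 e.2 '' Set.Ioo 0 1) (D.arc f.1 f.2 '' Set.Ioo 0 1)) → WD E

/-- CRB: the number of crossings of a drawing of a bipartite graph. -/
def T_CRB : Prop :=
  ∀ {V : Type} [Finite V] (G : SimpleGraph V) (c : V → Bool) (_ : ∀ u v, G.Adj u v → c u ≠ c v)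
    (D : Drawing G), 3 ≤ Nat.card V → Nat.card G.edgeSet + 4 ≤ 2 * Nat.card V + D.crossings

/-- EUL: the Euler bound for biplanar drawings of `K_{n,m}`. -/
def T_EUL : Prop :=
  ∀ (n m : ℕ) (B : Biplanar (K n m)), 3 ≤ n + m → n * m + 8 ≤ 4 * (n + m) + B.crossings

/-- TUR: the lower bound for `K_{5,q}`. -/
def T_TUR : Prop :=
  ∀ (q : ℕ) (B : Biplanar (K 5 q)),
    ((univ : Finset (Fin q × Fin q)).filter fun x => x.1 < x.2 ∧ x.1.val % 12 = x.2.val % 12).card ≤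
      B.crossings

/-! ## C. Drawings -/

/-- SL: straight line drawings. -/
def T_SL : Prop :=
  ∀ {V : Type} [Finite V] (G : SimpleGraph V) (P : V → ℂ), Function.Injective P →
    (∀ u v w, G.Adj u v → w ≠ u → w ≠ v → ori (P u) (P v) (P w) ≠ 0) →
    ∃ D : Drawing G, D.crossings ≤ (badPairs G P).ncard

/-- UPP: a drawing of one half of a self-complementary partition gives a self-complementary biplanar
drawing. -/
def T_UPP : Prop :=
  ∀ (n m k : ℕ) (G : SimpleGraph (Fin n ⊕ Fin m)) (φ : (Fin n ⊕ Fin m) ≃ (Fin n ⊕ Fin m))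
    (D : Drawing G), G ≤ K n m → (∀ u v, (K n m).Adj u v ↔ (K n m).Adj (φ u) (φ v)) →
    (∀ u v, (K n m).Adj u v → (G.Adj u v ↔ ¬ G.Adj (φ u) (φ v))) → D.crossings ≤ k →
    (∀ B : Biplanar (K n m), 2 * k ≤ B.crossings) → Q1 n m

/-- SWP: the question is symmetric. -/
def T_SWP : Prop := ∀ n m : ℕ, Q1 n m → Q1 m n

/-- PRM: the drawings of a template. -/
def T_PRM : Prop :=
  ∀ (n p : ℕ) [NeZero p] (T : Tmpl n p) (C : Finset (Fin p)), T.Ok C → ∀ m : ℕ,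
    ∃ D : Drawing (BG (T.adj m)), D.crossings ≤ (same p m C).card

/-- CNT: counting pairs. -/
def T_CNT : Prop :=
  ∀ q : ℕ, Even q → 2 * (same 12 q (univ.filter fun k => k.val % 2 = 0)).card ≤
    ((univ : Finset (Fin q × Fin q)).filter fun x => x.1 < x.2 ∧ x.1.val % 12 = x.2.val % 12).card

/-- CER: finite certificates: integer points. -/
def T_CER : Prop :=
  ∀ (n m k : ℕ) (A : Fin n → Fin m → Bool) (P : Fin n ⊕ Fin m → ℤ × ℤ), Function.Injective P →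
    (∀ i j, A i j = true → ∀ w, w ≠ Sum.inl i → w ≠ Sum.inr j →
      oriZ (P (Sum.inl i)) (P (Sum.inr j)) (P w) ≠ 0) →
    ((univ : Finset ((Fin n × Fin m) × (Fin n × Fin m))).filter fun x =>
      x.1.1 < x.2.1 ∧ x.1.2 ≠ x.2.2 ∧ A x.1.1 x.1.2 = true ∧ A x.2.1 x.2.2 = true ∧
        sepZ (P (Sum.inl x.1.1)) (P (Sum.inr x.1.2)) (P (Sum.inl x.2.1)) (P (Sum.inr x.2.2)) =
          false).card ≤ k →
    ∃ D : Drawing (BG A), D.crossings ≤ k

end Pool.Agent.H55.BP
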